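import Pool.Agent.W622.ETC.Stm

set_option autoImplicit false

namespace Pool.Agent.W154.ELT

open Pool.Agent.W622.ETC Module

theorem card_pow (M : Type) [AddCommMonoid M] [Module (ZMod 2) M] [Finite M] :
    Nat.card M = 2 ^ finrank (ZMod 2) M := by
  let _ : AddCommGroup M := Module.addCommMonoidToAddCommGroup (ZMod 2)
  rw [Module.natCard_eq_pow_finrank (K := ZMod 2) (V := M), Nat.card_zmod]

theorem t_NGC (hCB1 : S_CB1) (hOM : S_OM) (hSPLIT : S_SPLIT) : S_NGC := by
  intro V _ _ _ A F hCB hF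
  obtain ⟨hblock, hbad⟩ := hF
  have halt : AltFam A := hCB.mc.alt
  have hlink : Linked A := hCB.mc.her.linked
  have hloc : LocBlock A F := by
    rcases hblock with h | h
    · exact absurd h.1 (hCB.nc F)
    · exact h
  obtain ⟨hwA, _, hsp, _, _, _⟩ := hOM V A F halt hloc
  set w := om A F with hw
  have hwalt : Alt w := halt w hwA
  unfold Good at hbad
  push Not at hbad
  obtain ⟨c, ζ₀, hζ₀, hf, hno⟩ := hbad
  set f := ζ₀ c with hfdef
  have hf0 : f ≠ 0 := by
    intro h0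
    apply hno 0 (Submodule.zero_mem _)
    rw [h0]
    rfl
  have hc0 : c ≠ 0 := by
    rintro rfl
    apply hf0
    rw [hfdef, map_zero]
  have hfw : f ∈ sp w := by rw [hsp]; exact hf
  obtain ⟨a0, ha0⟩ := hfw
  -- the claim
  have claim : ∀ ζ ∈ A, ζ c = f → ∀ b : V, ζ b = 0 → w b = 0 → b = 0 := by
    intro ζ hζ hζc b hζb hwb
    by_contra hb0
    have hFann : F ≤ ann b := by
      rw [← hsp]
      exact hwalt.ker_iff_ann.1 hwb
    have hFBL : F ∈ BL A b := ⟨hblock, hFann⟩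
    obtain ⟨hcomps, -, -⟩ := hCB1 V A b hCB hb0
    obtain ⟨hsum, hdisj, -⟩ := hSPLIT V (res A (ann b)) (BL A b) {F} (halt.res _) hcomps
      (Set.singleton_subset_iff.2 hFBL)
    have hζmem : ζ ∈ res A (ann b) := (mem_res_ann halt).2 ⟨hζ, hζb⟩
    rw [hsum] at hζmem
    obtain ⟨ζ1, hζ1, ζ2, hζ2, hadd⟩ := Submodule.mem_sup.1 hζmem
    rw [sSup_singleton] at hdisj hζ1
    have h1 : ζ1 c ∈ F := hζ1.2 c
    have h2 : ζ2 c ∈ sSup (BL A b \ {F}) := hζ2.2 c
    have h3 : ζ1 c + ζ2 c = f := by rw [← LinearMap.add_apply, hadd, hζc]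
    have h4 : ζ2 c = ζ1 c + f := by
      rw [← h3, ← add_assoc, vadd, zero_add]
    have h5 : ζ2 c ∈ F := by rw [h4]; exact F.add_mem h1 hf
    have h6 : ζ2 c = 0 := (Submodule.disjoint_def.1 hdisj) _ h5 h2
    apply hno ζ1 ⟨hζ1.1.1, hζ1.2⟩
    rw [← h3, h6, add_zero]
  -- linked members
  have hex : ∀ a : LinearMap.ker w, ∃ ζ ∈ A, ζ (a0 + a.1) = f ∧ ζ c = f := by
    intro a
    have ha : w (a0 + a.1) = f := by
      rw [map_add, ha0, LinearMap.mem_ker.1 a.2, add_zero]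
    obtain ⟨ζ, hζ, h1, h2⟩ := hlink w hwA ζ₀ hζ₀ (a0 + a.1) c (by rw [ha])
    exact ⟨ζ, hζ, by rw [h1, ha], by rw [h2, ha]⟩
  choose Z hZA hZ1 hZ2 using hex
  let g : LinearMap.ker w → res A (ann c) := fun a =>
    ⟨Z a + Z 0, (mem_res_ann halt).2 ⟨A.add_mem (hZA a) (hZA 0), by
      rw [LinearMap.add_apply, hZ2, hZ2, vadd]⟩⟩
  have hg : Function.Injective g := by
    intro a a' haa
    have h1 : Z a + Z 0 = Z a' + Z 0 := congrArg Subtype.val haa
    have h2 : Z a = Z a' := by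
      refine LinearMap.ext fun v => ?_
      have e := congrArg (fun η : Frm V => η v) h1
      simp only [LinearMap.add_apply] at e
      exact add_right_cancel e
    have h3 : Z a (a.1 + a'.1) = 0 := by
      have e1 : Z a (a0 + a.1) = f := hZ1 a
      have e2 : Z a (a0 + a'.1) = f := by rw [h2]; exact hZ1 a'
      have e3 : (a.1 + a'.1) = (a0 + a.1) + (a0 + a'.1) := by
        have := vadd a0
        calc a.1 + a'.1 = (a0 + a0) + (a.1 + a'.1) := by rw [this, zero_add]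
          _ = _ := by abel
      rw [e3, map_add, e1, e2, vadd]
    have h4 : w (a.1 + a'.1) = 0 := by
      rw [map_add, LinearMap.mem_ker.1 a.2, LinearMap.mem_ker.1 a'.2, add_zero]
    have h5 := claim (Z a) (hZA a) (hZ2 a) _ h3 h4
    exact Subtype.ext (add_eq_zero'.1 h5)
  have hcard := Nat.card_le_card_of_injective g hg
  rw [card_pow (LinearMap.ker w), card_pow (res A (ann c))] at hcard
  have hle := (Nat.pow_le_pow_iff_right (by norm_num)).1 hcard
  refine ⟨c, hc0, ?_⟩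
  have hrk := finrank_sp_add_ker w
  rw [hsp] at hrk
  obtain ⟨-, hfr, -⟩ := hCB1 V A c hCB hc0
  rw [hfr] at hle
  omega

end Pool.Agent.W154.ELT
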